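import Pool.Agent.Helper426_Tach.Bdd

set_option autoImplicit false
open CategoryTheory
open Pool.Agent.Helper426Tach

namespace Pool.Agent.Results.MP_63944b_al.BoundedSyzygies

/-- Let R be a finite-dimensional algebra over a field and A a finitely generated module with
Ext^i(A, A) = 0 = Ext^i(A, R) for all i ≥ 1. If for some d infinitely many syzygies of A are direct
sums of modules generated by d elements, then A is projective. If moreover A is the dual
D(R_R) = Hom_C(R, E), C the center of R and E an injective hull of C / rad C, then R is
selfinjective (Tachikawa's first conjecture for R). -/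
theorem result (k : Type) [Field k] (R : Type) [Ring R] [Algebra k R] (hk : Module.Finite k R)
    [HasExt.{0} (ModuleCat.{0} R)] (A : ModuleCat.{0} R) (hA : Module.Finite R A)
    (d : ℕ) (h : BddSyz A d)
    (hAA : ∀ i, 1 ≤ i → Subsingleton (Abelian.Ext.{0} A A i))
    (hAR : ∀ i, 1 ≤ i → Subsingleton (Abelian.Ext.{0} A (ModuleCat.of R R) i)) :
    Module.Projective R A ∧
      ∀ (E : Type) [AddCommGroup E] [Module (Subring.center R) E], IsHull (Subring.center R) E →
        IsDual (Subring.center R) R E A → Module.Injective R R := by
  have hproj : Module.Projective R A := main_bdd k R A hA d h hAA hAR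
  obtain ⟨hfin, hart⟩ := center_finite k R
  refine ⟨hproj, ?_⟩
  rintro E _ _ ⟨hE, f, hf, hess⟩ ⟨φ, hφ⟩
  have hEf : Module.Finite (Subring.center R) E := finite_E f hess
  have hQ : Module.Injective R A := dual_injective φ hφ hE
  have hemb : ∀ (M : ModuleCat.{0} R), Module.Finite R M →
      ∃ (n : ℕ) (e : M →ₗ[R] (Fin n → A)), Function.Injective e := by
    intro M hM
    have := hM
    exact exists_embedding φ hφ hE f hf M
  exact selfinjective_of_projective A hA hQ hemb hproj

end Pool.Agent.Results.MP_63944b_al.BoundedSyzygies
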