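import Pool.Agent.Helper426_Tach.Bridge

set_option autoImplicit false
open CategoryTheory
open Pool.Agent.Helper426Tach

namespace Pool.Agent.Results.MP_63944b_al.SelfOrthogonal

/-- Over an artin algebra, a finitely generated module A with Ext^i(A, A) = 0 = Ext^i(A, R) in a
finite range is projective as soon as more than 2N of its syzygies are two-step over N modules.
For an injective module A the first condition is automatic. -/
theorem result (R : Type) [Ring R] [HasExt.{0} (ModuleCat.{0} R)]
    (hart : IsArtinianRing (Subring.center R)) (hfin : Module.Finite (Subring.center R) R)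
    (A : ModuleCat.{0} R) (hA : Module.Finite R A)
    (N : ℕ) (S : Finset ℕ) (J : ℕ) (hS : 2 * N < S.card) (hSJ : ∀ j ∈ S, 1 ≤ j ∧ j ≤ J)
    (hIT : SyzTwoStep A N S J)
    (hAA : EZ A A 1 (J + 2)) (hAR : EZ A (ModuleCat.of R R) 1 (J + 2)) :
    Module.Projective R A := by
  obtain ⟨G, hG, h⟩ := hIT
  exact main_syz R hart hfin A hA N G hG S J hS hSJ
    (fun j hj Y hY => twoStepSyz_of (h j hj Y (syz_of_isSyz hY))) hAA hAR

end Pool.Agent.Results.MP_63944b_al.SelfOrthogonal
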