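import Pool.Agent.Helper426_Tach.Bridge

set_option autoImplicit false
open CategoryTheory
open Pool.Agent.Helper426Tach

namespace Pool.Agent.Results.MP_63944b_al.TwoSidedIT

/-- Tachikawa's first conjecture for artin algebras R such that R or its opposite algebra is of
Igusa-Todorov type (the condition for the opposite algebra is stated in dual form, with
cosyzygies of left modules), with a finite bound on the number of Ext groups that must vanish. -/
theorem result (R : Type) [Ring R] [HasExt.{0} (ModuleCat.{0} R)]
    (hart : IsArtinianRing (Subring.center R)) (hfin : Module.Finite (Subring.center R) R)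
    (E : Type) [AddCommGroup E] [Module (Subring.center R) E] (hE : IsHull (Subring.center R) E)
    (Q : ModuleCat.{0} R) (φ : Q ≃+ (R →ₗ[Subring.center R] E))
    (hφ : ∀ (r : R) (q : Q) (x : R), φ (r • q) x = φ q (x * r))
    (N : ℕ) (S : Finset ℕ) (J : ℕ) (hS : 2 * N < S.card) (hSJ : ∀ j ∈ S, 1 ≤ j ∧ j ≤ J)
    (hIT : SyzTwoStep Q N S J ∨ CosyzTwoStep R N S J)
    (hExt : EZ Q (ModuleCat.of R R) 1 (J + 2)) :
    Module.Injective R R := by
  obtain ⟨hE, f, hf, hess⟩ := hE
  have hEf : Module.Finite (Subring.center R) E := finite_E f hess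
  have hfQ : Module.Finite R Q := dual_finite φ hφ
  have hQ : Module.Injective R Q := dual_injective φ hφ hE
  have hemb : ∀ (M : ModuleCat.{0} R), Module.Finite R M →
      ∃ (n : ℕ) (e : M →ₗ[R] (Fin n → Q)), Function.Injective e := by
    intro M hM
    have := hM
    exact exists_embedding φ hφ hE f hf M
  rcases hIT with ⟨G, hG, h⟩ | ⟨G, hG, h⟩
  · have hproj : Module.Projective R Q := by
      refine main_syz R hart hfin Q hfQ N G hG S J hS hSJ
        (fun j hj Y hY => twoStepSyz_of (h j hj Y (syz_of_isSyz hY))) ?_ hExt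
      intro i hi _
      obtain ⟨i, rfl⟩ : ∃ i', i = i' + 1 := ⟨i - 1, by omega⟩
      exact ez_injective hQ i
    exact selfinjective_of_projective Q hfQ hQ hemb hproj
  · exact main_cosyz2 R hart hfin Q hfQ hQ hemb N G hG S J hS hSJ
      (fun j hj Y hY => twoStepCo_of (h j hj Y (cosyz_of_isCosyz hY))) hExt

end Pool.Agent.Results.MP_63944b_al.TwoSidedIT
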